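import Mathlib

set_option autoImplicit false
open MeasureTheory Set
open scoped Pointwise

namespace Pool.Agent.Lib.MP_46ea74_gt

/-- The Euclidean plane. -/
abbrev E2 : Type := EuclideanSpace ℝ (Fin 2)

/-- Inner product in coordinates. -/
lemma inner2 (x y : E2) : @inner ℝ _ _ x y = x 0 * y 0 + x 1 * y 1 := by
  simp [PiLp.inner_apply, Fin.sum_univ_two, mul_comm]

lemma normsq2 (x : E2) : ‖x‖ ^ 2 = x 0 ^ 2 + x 1 ^ 2 := by
  rw [EuclideanSpace.norm_sq_eq]
  simp [Fin.sum_univ_two]

/-- The values of the support function of `A` at unit outer normals at `x`. -/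
def vals (A : Set E2) (x : E2) : Set ℝ :=
  {t : ℝ | ∃ u : E2, ‖u‖ = 1 ∧
    (∀ y ∈ A, @inner ℝ _ _ y u ≤ @inner ℝ _ _ x u) ∧ t = @inner ℝ _ _ x u}

/-- `segment a b` is an edge of `A` with outer unit normal `u` at height `h`. -/
structure IsEdge (A : Set E2) (a b u : E2) (h : ℝ) : Prop where
  norm : ‖u‖ = 1
  ha : @inner ℝ _ _ a u = h
  hb : @inner ℝ _ _ b u = h
  hsup : ∀ y ∈ A, @inner ℝ _ _ y u ≤ h
  amem : a ∈ A
  bmem : b ∈ A
  hab : a ≠ b
  hpos : 0 < h

lemma IsEdge.neg {A : Set E2} {a b u : E2} {h : ℝ} (H : IsEdge A a b u h) :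
    IsEdge (-A) (-a) (-b) (-u) h where
  norm := by rw [norm_neg]; exact H.norm
  ha := by rw [inner_neg_neg]; exact H.ha
  hb := by rw [inner_neg_neg]; exact H.hb
  hsup := by
    intro y hy
    have := H.hsup (-y) (by simpa using hy)
    rw [inner_neg_left] at this
    rw [inner_neg_right]
    exact this
  amem := by simpa using H.amem
  bmem := by simpa using H.bmem
  hab := by
    intro h'
    exact H.hab (neg_injective h')
  hpos := H.hpos

/-- Scalar form of the uniqueness of the unit normal. -/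
lemma unit_normal_scalar {a0 a1 b0 b1 u0 u1 v0 v1 h s t : ℝ} (hs : 0 < s) (ht : 0 < t)
    (hst : s + t = 1) (hv2 : v0 ^ 2 + v1 ^ 2 = 1) (hu2 : u0 ^ 2 + u1 ^ 2 = 1)
    (ha : a0 * u0 + a1 * u1 = h) (hb : b0 * u0 + b1 * u1 = h) (hpos : 0 < h)
    (hd : a0 - b0 ≠ 0 ∨ a1 - b1 ≠ 0)
    (e1 : a0 * v0 + a1 * v1 ≤ (s * a0 + t * b0) * v0 + (s * a1 + t * b1) * v1)
    (e2 : b0 * v0 + b1 * v1 ≤ (s * a0 + t * b0) * v0 + (s * a1 + t * b1) * v1)
    (e3 : 0 ≤ (s * a0 + t * b0) * v0 + (s * a1 + t * b1) * v1) : v0 = u0 ∧ v1 = u1 := by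
  have hs1 : s = 1 - t := by linarith
  subst hs1
  have f1 : t * ((a0 * v0 + a1 * v1) - (b0 * v0 + b1 * v1)) ≤ 0 := by linarith
  have f2 : 0 ≤ (1 - t) * ((a0 * v0 + a1 * v1) - (b0 * v0 + b1 * v1)) := by linarith
  have g1 : (a0 * v0 + a1 * v1) - (b0 * v0 + b1 * v1) ≤ 0 := by
    by_contra hcon
    push Not at hcon
    have := mul_pos ht hcon
    linarith
  have g2 : 0 ≤ (a0 * v0 + a1 * v1) - (b0 * v0 + b1 * v1) := by
    by_contra hcon
    push Not at hcon
    have := mul_neg_of_pos_of_neg hs hcon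
    linarith
  have g : (a0 - b0) * v0 + (a1 - b1) * v1 = 0 := by linarith
  have g' : (a0 - b0) * u0 + (a1 - b1) * u1 = 0 := by linarith
  have hcross : v0 * u1 - v1 * u0 = 0 := by
    rcases hd with hd | hd
    · have : (a0 - b0) * (v0 * u1 - v1 * u0) = 0 := by
        linear_combination u1 * g - v1 * g'
      exact (mul_eq_zero.mp this).resolve_left hd
    · have : (a1 - b1) * (v0 * u1 - v1 * u0) = 0 := by
        linear_combination v0 * g' - u0 * g
      exact (mul_eq_zero.mp this).resolve_left hd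
  have hdot : (v0 * u0 + v1 * u1) * (v0 * u0 + v1 * u1) = 1 := by
    have : (v0 * u0 + v1 * u1) * (v0 * u0 + v1 * u1) + (v0 * u1 - v1 * u0) ^ 2
        = (v0 ^ 2 + v1 ^ 2) * (u0 ^ 2 + u1 ^ 2) := by ring
    rw [hcross, hv2, hu2] at this
    linarith
  rcases mul_self_eq_one_iff.mp hdot with hc | hc
  · have hz : (v0 - u0) ^ 2 + (v1 - u1) ^ 2 = 0 := by
      have : (v0 - u0) ^ 2 + (v1 - u1) ^ 2
          = (v0 ^ 2 + v1 ^ 2) + (u0 ^ 2 + u1 ^ 2) - 2 * (v0 * u0 + v1 * u1) := by ring
      rw [hv2, hu2, hc] at this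
      linarith
    have q0 : (v0 - u0) ^ 2 = 0 := by
      have := sq_nonneg (v0 - u0)
      have := sq_nonneg (v1 - u1)
      linarith
    have q1 : (v1 - u1) ^ 2 = 0 := by
      have := sq_nonneg (v0 - u0)
      have := sq_nonneg (v1 - u1)
      linarith
    have z0 := pow_eq_zero_iff (two_ne_zero) |>.mp q0
    have z1 := pow_eq_zero_iff (two_ne_zero) |>.mp q1
    constructor <;> linarith
  · exfalso
    have hz : (v0 + u0) ^ 2 + (v1 + u1) ^ 2 = 0 := by
      have : (v0 + u0) ^ 2 + (v1 + u1) ^ 2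
          = (v0 ^ 2 + v1 ^ 2) + (u0 ^ 2 + u1 ^ 2) + 2 * (v0 * u0 + v1 * u1) := by ring
      rw [hv2, hu2, hc] at this
      linarith
    have q0 : (v0 + u0) ^ 2 = 0 := by
      have := sq_nonneg (v0 + u0)
      have := sq_nonneg (v1 + u1)
      linarith
    have q1 : (v1 + u1) ^ 2 = 0 := by
      have := sq_nonneg (v0 + u0)
      have := sq_nonneg (v1 + u1)
      linarith
    have z0 := pow_eq_zero_iff (two_ne_zero) |>.mp q0
    have z1 := pow_eq_zero_iff (two_ne_zero) |>.mp q1
    have w0 : v0 = - u0 := by linarith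
    have w1 : v1 = - u1 := by linarith
    rw [w0, w1] at e3
    have : ((1 - t) * a0 + t * b0) * -u0 + ((1 - t) * a1 + t * b1) * -u1
        = - ((1 - t) * (a0 * u0 + a1 * u1) + t * (b0 * u0 + b1 * u1)) := by ring
    rw [this, ha, hb] at e3
    linarith

/-- On the relative interior of an edge the unit outer normal is unique. -/
lemma IsEdge.unique {A : Set E2} {a b u : E2} {h : ℝ} (H : IsEdge A a b u h)
    (h0 : (0 : E2) ∈ A) {x : E2} (hx : x ∈ openSegment ℝ a b) {v : E2} (hv : ‖v‖ = 1)
    (hsv : ∀ y ∈ A, @inner ℝ _ _ y v ≤ @inner ℝ _ _ x v) : v = u := by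
  obtain ⟨s, t, hs, ht, hst, rfl⟩ := hx
  have e1 := hsv a H.amem
  have e2 := hsv b H.bmem
  have e3 := hsv 0 h0
  have ha := H.ha
  have hb := H.hb
  have hv2 : v 0 ^ 2 + v 1 ^ 2 = 1 := by rw [← normsq2, hv]; norm_num
  have hu2 : u 0 ^ 2 + u 1 ^ 2 = 1 := by rw [← normsq2, H.norm]; norm_num
  simp only [inner2, PiLp.add_apply, PiLp.smul_apply, smul_eq_mul, PiLp.zero_apply, zero_mul,
    add_zero] at e1 e2 e3 ha hb
  have hd : a 0 - b 0 ≠ 0 ∨ a 1 - b 1 ≠ 0 := by
    by_contra hcon
    push Not at hcon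
    apply H.hab
    ext i
    fin_cases i
    · simpa using sub_eq_zero.mp hcon.1
    · simpa using sub_eq_zero.mp hcon.2
  obtain ⟨w0, w1⟩ := unit_normal_scalar hs ht hst hv2 hu2 ha hb H.hpos hd e1 e2 e3
  ext i
  fin_cases i
  · simpa using w0
  · simpa using w1

/-- On the relative interior of an edge the set of support values is a singleton. -/
lemma IsEdge.vals_eq {A : Set E2} {a b u : E2} {h : ℝ} (H : IsEdge A a b u h)
    (h0 : (0 : E2) ∈ A) {x : E2} (hx : x ∈ openSegment ℝ a b) : vals A x = {h} := by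
  have hxu : @inner ℝ _ _ x u = h := by
    obtain ⟨s, t, hs, ht, hst, rfl⟩ := hx
    rw [inner_add_left, real_inner_smul_left, real_inner_smul_left, H.ha, H.hb, ← add_mul, hst,
      one_mul]
  ext t
  constructor
  · rintro ⟨v, hv, hsv, rfl⟩
    have := H.unique h0 hx hv hsv
    rw [this]
    exact hxu
  · intro ht
    rw [mem_singleton_iff] at ht
    subst ht
    exact ⟨u, H.norm, fun y hy => (H.hsup y hy).trans hxu.ge, hxu.symm⟩

/-- The integrand of the `L_p` surface area. -/
noncomputable def g (q : ℝ) (A : Set E2) (x : E2) : ℝ := (sSup (vals A x)) ^ q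

lemma diff_openSegment_null (a b : E2) :
    (μH[1] : Measure E2) (segment ℝ a b \ openSegment ℝ a b) = 0 := by
  have hsub : segment ℝ a b \ openSegment ℝ a b ⊆ {a, b} := by
    intro x hx
    have h1 := insert_endpoints_openSegment ℝ a b
    rw [← h1] at hx
    rcases hx with ⟨hx1, hx2⟩
    rcases hx1 with h | h | h
    · exact Or.inl h
    · exact Or.inr h
    · exact absurd h hx2
  have := Measure.nullSingletonClass_hausdorff E2 (d := 1) one_pos
  refine measure_mono_null hsub ?_
  exact (Set.toFinite _).measure_zero _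

lemma IsEdge.ae_eq {A : Set E2} {a b u : E2} {h : ℝ} (H : IsEdge A a b u h)
    (h0 : (0 : E2) ∈ A) (q : ℝ) :
    g q A =ᵐ[(μH[1] : Measure E2).restrict (segment ℝ a b)] fun _ => h ^ q := by
  have hmeas : MeasurableSet (segment ℝ a b) := by
    have : IsCompact (segment ℝ a b) := by
      rw [segment_eq_image_lineMap]
      exact isCompact_Icc.image (AffineMap.lineMap_continuous)
    exact this.isClosed.measurableSet
  rw [Filter.EventuallyEq, ae_restrict_iff' hmeas]
  have hnull := diff_openSegment_null a b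
  rw [ae_iff]
  refine measure_mono_null ?_ hnull
  intro x hx
  simp only [mem_ofPred_eq, Classical.not_imp] at hx
  refine ⟨hx.1, fun hx' => hx.2 ?_⟩
  rw [g, H.vals_eq h0 hx', csSup_singleton]

lemma measurableSet_segment' (a b : E2) : MeasurableSet (segment ℝ a b) := by
  have : IsCompact (segment ℝ a b) := by
    rw [segment_eq_image_lineMap]
    exact isCompact_Icc.image (AffineMap.lineMap_continuous)
  exact this.isClosed.measurableSet

lemma IsEdge.integrableOn {A : Set E2} {a b u : E2} {h : ℝ} (H : IsEdge A a b u h)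
    (h0 : (0 : E2) ∈ A) (q : ℝ) :
    IntegrableOn (g q A) (segment ℝ a b) (μH[1] : Measure E2) := by
  have hfin : (μH[1] : Measure E2) (segment ℝ a b) ≠ ⊤ := by
    rw [hausdorffMeasure_segment]
    exact edist_ne_top a b
  have h1 : IntegrableOn (fun _ : E2 => h ^ q) (segment ℝ a b) (μH[1] : Measure E2) :=
    integrableOn_const hfin enorm_ne_top
  exact h1.congr (H.ae_eq h0 q).symm

lemma IsEdge.integral {A : Set E2} {a b u : E2} {h : ℝ} (H : IsEdge A a b u h)
    (h0 : (0 : E2) ∈ A) (q : ℝ) :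
    ∫ x in segment ℝ a b, g q A x ∂(μH[1] : Measure E2) = dist a b * h ^ q := by
  rw [integral_congr_ae (H.ae_eq h0 q), setIntegral_const, smul_eq_mul]
  congr 1
  rw [measureReal_def, hausdorffMeasure_segment, edist_dist, ENNReal.toReal_ofReal dist_nonneg]

/-- The integral over the boundary of a polygon is the sum over its edges. -/
theorem edge_sum {m : ℕ} (A : Set E2) (h0 : (0 : E2) ∈ A) (a b u : Fin m → E2) (h : Fin m → ℝ)
    (hedge : ∀ i, IsEdge A (a i) (b i) (u i) (h i)) (hu : Function.Injective u)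
    (hfr : frontier A = ⋃ i, segment ℝ (a i) (b i)) (q : ℝ) :
    ∫ x in frontier A, g q A x ∂(μH[1] : Measure E2) = ∑ i, dist (a i) (b i) * (h i) ^ q := by
  have hd : Pairwise (Function.onFun (AEDisjoint (μH[1] : Measure E2))
      (fun i => segment ℝ (a i) (b i))) := by
    intro i j hij
    refine measure_mono_null ?_ (diff_openSegment_null (a i) (b i))
    rintro x ⟨hxi, hxj⟩
    refine ⟨hxi, fun hxo => hij ?_⟩
    have hxuj : @inner ℝ _ _ x (u j) = h j := by
      obtain ⟨s, t, hs, ht, hst, rfl⟩ := hxj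
      rw [inner_add_left, real_inner_smul_left, real_inner_smul_left, (hedge j).ha,
        (hedge j).hb, ← add_mul, hst, one_mul]
    have := (hedge i).unique h0 hxo (hedge j).norm
      (fun y hy => ((hedge j).hsup y hy).trans hxuj.ge)
    exact (hu this).symm
  rw [hfr, integral_iUnion_ae (fun i => (measurableSet_segment' _ _).nullMeasurableSet) hd,
    tsum_fintype]
  · exact Finset.sum_congr rfl fun i _ => (hedge i).integral h0 q
  · rw [integrableOn_finite_iUnion]
    exact fun i => (hedge i).integrableOn h0 q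

/-- The frontier of a polygon given by inequalities is the union of its faces. -/
theorem frontier_eq {m : ℕ} (A : Set E2) (a b u : Fin m → E2) (h : Fin m → ℝ)
    (hA : A = {x | ∀ i, @inner ℝ _ _ x (u i) ≤ h i})
    (hedge : ∀ i, IsEdge A (a i) (b i) (u i) (h i))
    (hface : ∀ i, ∀ x ∈ A, @inner ℝ _ _ x (u i) = h i → x ∈ segment ℝ (a i) (b i)) :
    frontier A = ⋃ i, segment ℝ (a i) (b i) := by
  have hclosed : IsClosed A := by
    rw [hA, Set.ofPred_forall]
    exact isClosed_iInter fun i =>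
      isClosed_le (Continuous.inner continuous_id continuous_const) continuous_const
  have hconv : Convex ℝ A := by
    intro x hx y hy s t hs ht hst
    rw [hA] at hx hy ⊢
    intro i
    rw [inner_add_left, real_inner_smul_left, real_inner_smul_left]
    have h1 := mul_le_mul_of_nonneg_left (hx i) hs
    have h2 := mul_le_mul_of_nonneg_left (hy i) ht
    have h3 : s * h i + t * h i = h i := by rw [← add_mul, hst, one_mul]
    linarith
  rw [hclosed.frontier_eq]
  ext x
  simp only [mem_iUnion]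
  constructor
  · rintro ⟨hx, hni⟩
    by_contra hcon
    push Not at hcon
    apply hni
    rw [mem_interior_iff_mem_nhds]
    have hlt : ∀ i, @inner ℝ _ _ x (u i) < h i := by
      intro i
      have h1 : @inner ℝ _ _ x (u i) ≤ h i := by
        rw [hA] at hx
        exact hx i
      exact lt_of_le_of_ne h1 fun h2 => hcon i (hface i x hx h2)
    have : {y : E2 | ∀ i, @inner ℝ _ _ y (u i) < h i} ∈ nhds x := by
      apply IsOpen.mem_nhds
      · rw [Set.ofPred_forall]
        exact isOpen_iInter_of_finite fun i =>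
          isOpen_lt (Continuous.inner continuous_id continuous_const) continuous_const
      · exact hlt
    refine Filter.mem_of_superset this ?_
    intro y hy
    rw [hA]
    exact fun i => (hy i).le
  · rintro ⟨i, hx⟩
    have hxA : x ∈ A := hconv.segment_subset (hedge i).amem (hedge i).bmem hx
    refine ⟨hxA, fun hint => ?_⟩
    have hxu : @inner ℝ _ _ x (u i) = h i := by
      obtain ⟨s, t, hs, ht, hst, rfl⟩ := hx
      rw [inner_add_left, real_inner_smul_left, real_inner_smul_left, (hedge i).ha,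
        (hedge i).hb, ← add_mul, hst, one_mul]
    rw [mem_interior_iff_mem_nhds] at hint
    have hcont : Continuous fun r : ℝ => x + r • u i := by fun_prop
    have h1 : ∀ᶠ r : ℝ in nhds 0, x + r • u i ∈ A := by
      apply hcont.continuousAt.eventually_mem
      simpa using hint
    obtain ⟨ε, hε, hball⟩ := Metric.eventually_nhds_iff.mp h1
    have h2 := hball (y := ε / 2) (by
      rw [Real.dist_eq, sub_zero, abs_of_pos (by linarith)]
      linarith)
    have h3 := (hedge i).hsup _ h2
    rw [inner_add_left, real_inner_smul_left, hxu, real_inner_self_eq_norm_sq, (hedge i).norm] at h3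
    linarith

end Pool.Agent.Lib.MP_46ea74_gt
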