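import Mathlib
import Pool.Agent.Lib.MP_46ea74_gt.Poly

set_option autoImplicit false
open MeasureTheory Set
open scoped Pointwise

namespace Pool.Agent.Lib.MP_46ea74_gt

lemma norm_one_of {u : E2} (h : u 0 ^ 2 + u 1 ^ 2 = 1) : ‖u‖ = 1 := by
  have h1 := normsq2 u
  rw [h] at h1
  have h2 := norm_nonneg u
  nlinarith

lemma mem_seg {a b x : E2} (t : ℝ) (ht0 : 0 ≤ t) (ht1 : t ≤ 1)
    (h0 : x 0 = (1 - t) * a 0 + t * b 0) (h1 : x 1 = (1 - t) * a 1 + t * b 1) :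
    x ∈ segment ℝ a b := by
  refine ⟨1 - t, t, by linarith, ht0, by ring, ?_⟩
  ext i
  fin_cases i
  · simp [h0]
  · simp [h1]

lemma dist2 (a b : E2) (d : ℝ) (hd : 0 ≤ d) (h : (a 0 - b 0) ^ 2 + (a 1 - b 1) ^ 2 = d ^ 2) :
    dist a b = d := by
  have h1 := normsq2 (a - b)
  rw [PiLp.sub_apply, PiLp.sub_apply, h] at h1
  rw [dist_eq_norm]
  exact (sq_eq_sq₀ (norm_nonneg _) hd).mp h1

/-- Normals of the trapezoid `K`. -/
noncomputable def uK : Fin 4 → E2 := ![!₂[0, -1], !₂[3/5, 4/5], !₂[0, 1], !₂[-1, 0]]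
/-- Heights of the trapezoid `K`. -/
noncomputable def hK : Fin 4 → ℝ := ![9, 900, 9, 900]
/-- Starting points of the edges of `K`. -/
noncomputable def aK : Fin 4 → E2 := ![!₂[-900, -9], !₂[1512, -9], !₂[1488, 9], !₂[-900, 9]]
/-- End points of the edges of `K`. -/
noncomputable def bK : Fin 4 → E2 := ![!₂[1512, -9], !₂[1488, 9], !₂[-900, 9], !₂[-900, -9]]
/-- The trapezoid `K`. -/
noncomputable def K : Set E2 := {x | ∀ i, @inner ℝ _ _ x (uK i) ≤ hK i}

/-- Normals of the hexagon `M`. -/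
noncomputable def uM : Fin 6 → E2 :=
  ![!₂[1, 0], !₂[3/5, 4/5], !₂[0, 1], !₂[-1, 0], !₂[-3/5, -4/5], !₂[0, -1]]
/-- Heights of the hexagon `M`. -/
noncomputable def hM : Fin 6 → ℝ := ![2412, 7236/5, 18, 2412, 7236/5, 18]
/-- Starting points of the edges of `M`. -/
noncomputable def aM : Fin 6 → E2 :=
  ![!₂[2412, -18], !₂[2412, 0], !₂[2388, 18], !₂[-2412, 18], !₂[-2412, 0], !₂[-2388, -18]]
/-- End points of the edges of `M`. -/
noncomputable def bM : Fin 6 → E2 :=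
  ![!₂[2412, 0], !₂[2388, 18], !₂[-2412, 18], !₂[-2412, 0], !₂[-2388, -18], !₂[2412, -18]]
/-- The hexagon `M`. -/
noncomputable def M : Set E2 := {x | ∀ i, @inner ℝ _ _ x (uM i) ≤ hM i}

lemma mem_K (x : E2) : x ∈ K ↔ -9 ≤ x 1 ∧ 3 * x 0 + 4 * x 1 ≤ 4500 ∧ x 1 ≤ 9 ∧ -900 ≤ x 0 := by
  simp only [K, Set.mem_ofPred_eq, Fin.forall_fin_succ, uK, hK, inner2]
  simp
  constructor
  · rintro ⟨h1, h2, h3, h4⟩
    refine ⟨by linarith, by linarith, by linarith, by linarith⟩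
  · rintro ⟨h1, h2, h3, h4⟩
    refine ⟨by linarith, by linarith, by linarith, by linarith⟩

lemma mem_M (x : E2) : x ∈ M ↔ (x 0 ≤ 2412 ∧ 3 * x 0 + 4 * x 1 ≤ 7236 ∧ x 1 ≤ 18 ∧ -2412 ≤ x 0 ∧
    -7236 ≤ 3 * x 0 + 4 * x 1 ∧ -18 ≤ x 1) := by
  simp only [M, Set.mem_ofPred_eq, Fin.forall_fin_succ, uM, hM, inner2]
  simp [-and_congr_right_iff]
  constructor
  · rintro ⟨h1, h2, h3, h4, h5, h6⟩
    refine ⟨by linarith, by linarith, by linarith, by linarith, by linarith, by linarith⟩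
  · rintro ⟨h1, h2, h3, h4, h5, h6⟩
    refine ⟨by linarith, by linarith, by linarith, by linarith, by linarith, by linarith⟩

lemma zero_mem_K : (0 : E2) ∈ K := by
  rw [mem_K]; norm_num

lemma zero_mem_M : (0 : E2) ∈ M := by
  rw [mem_M]; norm_num

lemma edge_K (i : Fin 4) : IsEdge K (aK i) (bK i) (uK i) (hK i) := by
  refine ⟨norm_one_of ?_, ?_, ?_, fun y hy => hy i, ?_, ?_, ?_, ?_⟩
  · fin_cases i <;> norm_num [uK]
  · rw [inner2]
    fin_cases i <;> norm_num [uK, aK, hK]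
  · rw [inner2]
    fin_cases i <;> norm_num [uK, bK, hK]
  · rw [mem_K]
    fin_cases i <;> norm_num [aK]
  · rw [mem_K]
    fin_cases i <;> norm_num [bK]
  · intro h
    have h0 := congrArg (fun z : E2 => z 0) h
    have h1 := congrArg (fun z : E2 => z 1) h
    revert h0 h1
    fin_cases i <;> norm_num [aK, bK]
  · fin_cases i <;> norm_num [hK]

lemma edge_M (i : Fin 6) : IsEdge M (aM i) (bM i) (uM i) (hM i) := by
  refine ⟨norm_one_of ?_, ?_, ?_, fun y hy => hy i, ?_, ?_, ?_, ?_⟩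
  · fin_cases i <;> norm_num [uM]
  · rw [inner2]
    fin_cases i <;> norm_num [uM, aM, hM]
  · rw [inner2]
    fin_cases i <;> norm_num [uM, bM, hM]
  · rw [mem_M]
    fin_cases i <;> norm_num [aM]
  · rw [mem_M]
    fin_cases i <;> norm_num [bM]
  · intro h
    have h0 := congrArg (fun z : E2 => z 0) h
    have h1 := congrArg (fun z : E2 => z 1) h
    revert h0 h1
    fin_cases i <;> norm_num [aM, bM]
  · fin_cases i <;> norm_num [hM]

lemma face_K (i : Fin 4) (x : E2) (hx : x ∈ K) (h : @inner ℝ _ _ x (uK i) = hK i) :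
    x ∈ segment ℝ (aK i) (bK i) := by
  rw [mem_K] at hx
  obtain ⟨h1, h2, h3, h4⟩ := hx
  rw [inner2] at h
  fin_cases i
  · norm_num [uK, hK] at h
    refine mem_seg ((x 0 + 900) / 2412) ?_ ?_ ?_ ?_ <;> norm_num [aK, bK] <;> linarith
  · norm_num [uK, hK] at h
    refine mem_seg ((x 1 + 9) / 18) ?_ ?_ ?_ ?_ <;> norm_num [aK, bK] <;> linarith
  · norm_num [uK, hK] at h
    refine mem_seg ((1488 - x 0) / 2388) ?_ ?_ ?_ ?_ <;> norm_num [aK, bK] <;> linarith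
  · norm_num [uK, hK] at h
    refine mem_seg ((9 - x 1) / 18) ?_ ?_ ?_ ?_ <;> norm_num [aK, bK] <;> linarith

lemma face_M (i : Fin 6) (x : E2) (hx : x ∈ M) (h : @inner ℝ _ _ x (uM i) = hM i) :
    x ∈ segment ℝ (aM i) (bM i) := by
  rw [mem_M] at hx
  obtain ⟨h1, h2, h3, h4, h5, h6⟩ := hx
  rw [inner2] at h
  fin_cases i
  · norm_num [uM, hM] at h
    refine mem_seg ((x 1 + 18) / 18) ?_ ?_ ?_ ?_ <;> norm_num [aM, bM] <;> linarith
  · norm_num [uM, hM] at h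
    refine mem_seg (x 1 / 18) ?_ ?_ ?_ ?_ <;> norm_num [aM, bM] <;> linarith
  · norm_num [uM, hM] at h
    refine mem_seg ((2388 - x 0) / 4800) ?_ ?_ ?_ ?_ <;> norm_num [aM, bM] <;> linarith
  · norm_num [uM, hM] at h
    refine mem_seg ((18 - x 1) / 18) ?_ ?_ ?_ ?_ <;> norm_num [aM, bM] <;> linarith
  · norm_num [uM, hM] at h
    refine mem_seg (-x 1 / 18) ?_ ?_ ?_ ?_ <;> norm_num [aM, bM] <;> linarith
  · norm_num [uM, hM] at h
    refine mem_seg ((x 0 + 2388) / 4800) ?_ ?_ ?_ ?_ <;> norm_num [aM, bM] <;> linarith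

lemma frontier_K : frontier K = ⋃ i, segment ℝ (aK i) (bK i) :=
  frontier_eq K aK bK uK hK rfl edge_K face_K

lemma frontier_M : frontier M = ⋃ i, segment ℝ (aM i) (bM i) :=
  frontier_eq M aM bM uM hM rfl edge_M face_M

lemma inj_K : Function.Injective uK := by
  intro i j h
  have h0 := congrArg (fun z : E2 => z 0) h
  have h1 := congrArg (fun z : E2 => z 1) h
  revert h0 h1
  clear h
  fin_cases i <;> fin_cases j <;> norm_num [uK]

lemma inj_M : Function.Injective uM := by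
  intro i j h
  have h0 := congrArg (fun z : E2 => z 0) h
  have h1 := congrArg (fun z : E2 => z 1) h
  revert h0 h1
  clear h
  fin_cases i <;> fin_cases j <;> norm_num [uM]

lemma int_K (q : ℝ) : ∫ x in frontier K, g q K x ∂(μH[1] : Measure E2)
    = 4800 * 9 ^ q + 48 * 900 ^ q := by
  rw [edge_sum K zero_mem_K aK bK uK hK edge_K inj_K frontier_K q]
  have d0 : dist (aK 0) (bK 0) = 2412 :=
    dist2 (!₂[-900, -9]) (!₂[1512, -9]) 2412 (by norm_num) (by norm_num)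
  have d1 : dist (aK 1) (bK 1) = 30 :=
    dist2 (!₂[1512, -9]) (!₂[1488, 9]) 30 (by norm_num) (by norm_num)
  have d2 : dist (aK 2) (bK 2) = 2388 :=
    dist2 (!₂[1488, 9]) (!₂[-900, 9]) 2388 (by norm_num) (by norm_num)
  have d3 : dist (aK 3) (bK 3) = 18 :=
    dist2 (!₂[-900, 9]) (!₂[-900, -9]) 18 (by norm_num) (by norm_num)
  rw [Fin.sum_univ_four, d0, d1, d2, d3]
  simp only [hK]
  simp
  ring

lemma int_M (q : ℝ) : ∫ x in frontier M, g q M x ∂(μH[1] : Measure E2)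
    = 36 * 2412 ^ q + 60 * (7236/5) ^ q + 9600 * 18 ^ q := by
  rw [edge_sum M zero_mem_M aM bM uM hM edge_M inj_M frontier_M q]
  have d0 : dist (aM 0) (bM 0) = 18 :=
    dist2 (!₂[2412, -18]) (!₂[2412, 0]) 18 (by norm_num) (by norm_num)
  have d1 : dist (aM 1) (bM 1) = 30 :=
    dist2 (!₂[2412, 0]) (!₂[2388, 18]) 30 (by norm_num) (by norm_num)
  have d2 : dist (aM 2) (bM 2) = 4800 :=
    dist2 (!₂[2388, 18]) (!₂[-2412, 18]) 4800 (by norm_num) (by norm_num)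
  have d3 : dist (aM 3) (bM 3) = 18 :=
    dist2 (!₂[-2412, 18]) (!₂[-2412, 0]) 18 (by norm_num) (by norm_num)
  have d4 : dist (aM 4) (bM 4) = 30 :=
    dist2 (!₂[-2412, 0]) (!₂[-2388, -18]) 30 (by norm_num) (by norm_num)
  have d5 : dist (aM 5) (bM 5) = 4800 :=
    dist2 (!₂[-2388, -18]) (!₂[2412, -18]) 4800 (by norm_num) (by norm_num)
  rw [Fin.sum_univ_six, d0, d1, d2, d3, d4, d5]
  simp only [hM]
  simp
  ring

end Pool.Agent.Lib.MP_46ea74_gt
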