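import Mathlib
import Pool.Agent.Lib.MP_46ea74_gt.Shapes

set_option autoImplicit false
open MeasureTheory Set
open scoped Pointwise

namespace Pool.Agent.Lib.MP_46ea74_gt

/-- The Minkowski sum of the trapezoid `K` and its reflection is the hexagon `M`. -/
lemma sum_eq : K + (-K) = M := by
  ext x
  constructor
  · rintro ⟨y, hy, z, hz, rfl⟩
    rw [Set.mem_neg, mem_K] at hz
    rw [mem_K] at hy
    rw [mem_M]
    simp only [PiLp.neg_apply, PiLp.add_apply] at hz ⊢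
    obtain ⟨h1, h2, h3, h4⟩ := hy
    obtain ⟨k1, k2, k3, k4⟩ := hz
    refine ⟨?_, ?_, ?_, ?_, ?_, ?_⟩ <;> linarith
  · intro hx
    rw [mem_M] at hx
    obtain ⟨h1, h2, h3, h4, h5, h6⟩ := hx
    have key : ∀ y0 y1 : ℝ, (-9 ≤ y1 ∧ 3 * y0 + 4 * y1 ≤ 4500 ∧ y1 ≤ 9 ∧ -900 ≤ y0) →
        (-9 ≤ -(x 1 - y1) ∧ 3 * -(x 0 - y0) + 4 * -(x 1 - y1) ≤ 4500 ∧ -(x 1 - y1) ≤ 9 ∧
          -900 ≤ -(x 0 - y0)) → x ∈ K + (-K) := by
      intro y0 y1 hy hz
      refine ⟨!₂[y0, y1], ?_, x - !₂[y0, y1], ?_, add_sub_cancel _ _⟩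
      · rw [mem_K]
        simpa using hy
      · rw [Set.mem_neg, mem_K]
        simpa using hz
    rcases le_total 0 (x 0) with h0 | h0 <;> rcases le_total 0 (x 1) with h1' | h1'
    · exact key (x 0 - 900) (x 1 - 9)
        ⟨by linarith, by linarith, by linarith, by linarith⟩
        ⟨by linarith, by linarith, by linarith, by linarith⟩
    · exact key (x 0 - 900) (-9)
        ⟨by linarith, by linarith, by linarith, by linarith⟩
        ⟨by linarith, by linarith, by linarith, by linarith⟩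
    · exact key (-900) (x 1 - 9)
        ⟨by linarith, by linarith, by linarith, by linarith⟩
        ⟨by linarith, by linarith, by linarith, by linarith⟩
    · exact key (-900) (-9)
        ⟨by linarith, by linarith, by linarith, by linarith⟩
        ⟨by linarith, by linarith, by linarith, by linarith⟩

lemma K_convex : Convex ℝ K := by
  intro x hx y hy s t hs ht hst i
  rw [inner_add_left, real_inner_smul_left, real_inner_smul_left]
  have h1 := mul_le_mul_of_nonneg_left (hx i) hs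
  have h2 := mul_le_mul_of_nonneg_left (hy i) ht
  have h3 : s * hK i + t * hK i = hK i := by rw [← add_mul, hst, one_mul]
  linarith

lemma K_closed : IsClosed K := by
  rw [K, Set.ofPred_forall]
  exact isClosed_iInter fun i =>
    isClosed_le (Continuous.inner continuous_id continuous_const) continuous_const

lemma K_compact : IsCompact K := by
  refine Metric.isCompact_of_isClosed_isBounded K_closed ?_
  rw [isBounded_iff_forall_norm_le]
  refine ⟨3000, fun x hx => ?_⟩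
  rw [mem_K] at hx
  obtain ⟨h1, h2, h3, h4⟩ := hx
  have h5 := normsq2 x
  have h6 : x 0 ≤ 1600 := by linarith
  have h7 : x 0 ^ 2 ≤ 1600 ^ 2 := by nlinarith
  have h8 : x 1 ^ 2 ≤ 9 ^ 2 := by nlinarith
  have h9 : ‖x‖ ^ 2 ≤ 3000 ^ 2 := by rw [h5]; linarith
  exact (sq_le_sq₀ (norm_nonneg x) (by norm_num)).mp h9

lemma zero_mem_interior_K : (0 : E2) ∈ interior K := by
  rw [mem_interior_iff_mem_nhds]
  have : {y : E2 | ∀ i, @inner ℝ _ _ y (uK i) < hK i} ∈ nhds (0 : E2) := by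
    apply IsOpen.mem_nhds
    · rw [Set.ofPred_forall]
      exact isOpen_iInter_of_finite fun i =>
        isOpen_lt (Continuous.inner continuous_id continuous_const) continuous_const
    · intro i
      rw [inner_zero_left]
      exact (edge_K i).hpos
  exact Filter.mem_of_superset this fun y hy i => (hy i).le

lemma zero_mem_interior_negK : (0 : E2) ∈ interior (-K) := by
  rw [mem_interior_iff_mem_nhds]
  have h := mem_interior_iff_mem_nhds.mp zero_mem_interior_K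
  exact (continuous_neg.tendsto' (0 : E2) 0 neg_zero) h

lemma negK_int (q : ℝ) : ∫ x in frontier (-K), g q (-K) x ∂(μH[1] : Measure E2)
    = 4800 * 9 ^ q + 48 * 900 ^ q := by
  have hfr : frontier (-K) = ⋃ i, segment ℝ ((-aK) i) ((-bK) i) := by
    apply frontier_eq (-K) (-aK) (-bK) (-uK) hK
    · ext x
      simp only [Set.mem_neg, K, Set.mem_ofPred_eq, Pi.neg_apply, inner_neg_left, inner_neg_right]
    · intro i
      exact (edge_K i).neg
    · intro i x hx h
      have h1 := face_K i (-x) (by simpa using hx) (by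
        rw [inner_neg_left, ← inner_neg_right]
        exact h)
      rw [← neg_neg x]
      obtain ⟨s, t, hs, ht, hst, e⟩ := h1
      refine ⟨s, t, hs, ht, hst, ?_⟩
      rw [← e]
      simp only [Pi.neg_apply, smul_neg, neg_add]
  rw [edge_sum (-K) (by simpa using zero_mem_K) (-aK) (-bK) (-uK) hK (fun i => (edge_K i).neg)
    (fun i j h => inj_K (neg_injective h)) hfr q, ← int_K q,
    edge_sum K zero_mem_K aK bK uK hK edge_K inj_K frontier_K q]
  refine Finset.sum_congr rfl fun i _ => ?_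
  congr 1
  simp only [Pi.neg_apply, dist_neg_neg]

lemma numeric : ¬ ((15840 : ℝ) ^ (1 / ((2 : ℝ) - 1 / 2)) + (15840 : ℝ) ^ (1 / ((2 : ℝ) - 1 / 2))
    ≤ (36 * (2412 : ℝ) ^ ((1 : ℝ) / 2) + 60 * (7236 / 5 : ℝ) ^ ((1 : ℝ) / 2)
      + 9600 * (18 : ℝ) ^ ((1 : ℝ) / 2)) ^ (1 / ((2 : ℝ) - 1 / 2))) := by
  rw [not_le]
  have e1 : (1 / ((2 : ℝ) - 1 / 2)) = 2 / 3 := by norm_num
  rw [e1]
  have s1 : (2412 : ℝ) ^ ((1 : ℝ) / 2) ≤ Real.sqrt 2 * 34.73 := by
    rw [← Real.sqrt_eq_rpow]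
    have : Real.sqrt 2 * 34.73 = Real.sqrt (2 * 34.73 ^ 2) := by
      rw [Real.sqrt_mul (by norm_num), Real.sqrt_sq (by norm_num)]
    rw [this]
    exact Real.sqrt_le_sqrt (by norm_num)
  have s2 : (7236 / 5 : ℝ) ^ ((1 : ℝ) / 2) ≤ Real.sqrt 2 * 26.9 := by
    rw [← Real.sqrt_eq_rpow]
    have : Real.sqrt 2 * 26.9 = Real.sqrt (2 * 26.9 ^ 2) := by
      rw [Real.sqrt_mul (by norm_num), Real.sqrt_sq (by norm_num)]
    rw [this]
    exact Real.sqrt_le_sqrt (by norm_num)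
  have s3 : (18 : ℝ) ^ ((1 : ℝ) / 2) = Real.sqrt 2 * 3 := by
    rw [← Real.sqrt_eq_rpow]
    have : Real.sqrt 2 * 3 = Real.sqrt (2 * 3 ^ 2) := by
      rw [Real.sqrt_mul (by norm_num), Real.sqrt_sq (by norm_num)]
    rw [this]
    norm_num
  have hpos2 : 0 < Real.sqrt 2 := Real.sqrt_pos.mpr (by norm_num)
  have hlt : 36 * (2412 : ℝ) ^ ((1 : ℝ) / 2) + 60 * (7236 / 5 : ℝ) ^ ((1 : ℝ) / 2)
      + 9600 * (18 : ℝ) ^ ((1 : ℝ) / 2) < (2 * Real.sqrt 2) * 15840 := by
    rw [s3]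
    nlinarith
  have e2 : (2 * Real.sqrt 2 : ℝ) = (2 : ℝ) ^ ((3 : ℝ) / 2) := by
    rw [show (3 : ℝ) / 2 = 1 + 1 / 2 by norm_num, Real.rpow_add (by norm_num), Real.rpow_one,
      Real.sqrt_eq_rpow]
  have e3 : (15840 : ℝ) ^ ((2 : ℝ) / 3) + (15840 : ℝ) ^ ((2 : ℝ) / 3)
      = ((2 * Real.sqrt 2) * 15840) ^ ((2 : ℝ) / 3) := by
    rw [e2, Real.mul_rpow (by positivity) (by norm_num), ← Real.rpow_mul (by norm_num),
      show (3 : ℝ) / 2 * (2 / 3) = 1 by norm_num, Real.rpow_one]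
    ring
  rw [e3]
  exact Real.rpow_lt_rpow (by positivity) hlt (by norm_num)

lemma val_K : (4800 : ℝ) * 9 ^ ((1 : ℝ) / 2) + 48 * 900 ^ ((1 : ℝ) / 2) = 15840 := by
  have h9 : (9 : ℝ) ^ ((1 : ℝ) / 2) = 3 := by
    rw [← Real.sqrt_eq_rpow, show (9 : ℝ) = 3 ^ 2 by norm_num, Real.sqrt_sq (by norm_num)]
  have h900 : (900 : ℝ) ^ ((1 : ℝ) / 2) = 30 := by
    rw [← Real.sqrt_eq_rpow, show (900 : ℝ) = 30 ^ 2 by norm_num, Real.sqrt_sq (by norm_num)]
  rw [h9, h900]
  norm_num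

end Pool.Agent.Lib.MP_46ea74_gt
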