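import Mathlib
import Pool.Agent.Lib.MP_46ea74_gt.Shapes

set_option autoImplicit false
open MeasureTheory Set
open scoped Pointwise

namespace Pool.Agent.Lib.MP_46ea74_gt.Par

open Pool.Agent.Lib.MP_46ea74_gt

/-- Normals of the thin trapezoid. -/
noncomputable def uK : Fin 4 → E2 := ![!₂[0, -1], !₂[3/5, 4/5], !₂[0, 1], !₂[-1, 0]]
/-- Heights of the thin trapezoid. -/
noncomputable def hK (d : ℝ) : Fin 4 → ℝ := ![d, 1, d, 1]
/-- Starting points of the edges. -/
noncomputable def aK (d : ℝ) : Fin 4 → E2 :=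
  ![!₂[-1, -d], !₂[(5 + 4 * d) / 3, -d], !₂[(5 - 4 * d) / 3, d], !₂[-1, d]]
/-- End points of the edges. -/
noncomputable def bK (d : ℝ) : Fin 4 → E2 :=
  ![!₂[(5 + 4 * d) / 3, -d], !₂[(5 - 4 * d) / 3, d], !₂[-1, d], !₂[-1, -d]]
/-- The thin trapezoid. -/
noncomputable def K (d : ℝ) : Set E2 := {x | ∀ i, @inner ℝ _ _ x (uK i) ≤ hK d i}

/-- Normals of the hexagon. -/
noncomputable def uM : Fin 6 → E2 :=
  ![!₂[1, 0], !₂[3/5, 4/5], !₂[0, 1], !₂[-1, 0], !₂[-3/5, -4/5], !₂[0, -1]]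
/-- Heights of the hexagon. -/
noncomputable def hM (d : ℝ) : Fin 6 → ℝ :=
  ![(8 + 4 * d) / 3, (8 + 4 * d) / 5, 2 * d, (8 + 4 * d) / 3, (8 + 4 * d) / 5, 2 * d]
/-- Starting points of the edges of the hexagon. -/
noncomputable def aM (d : ℝ) : Fin 6 → E2 :=
  ![!₂[(8 + 4 * d) / 3, -(2 * d)], !₂[(8 + 4 * d) / 3, 0], !₂[(8 - 4 * d) / 3, 2 * d],
    !₂[-((8 + 4 * d) / 3), 2 * d], !₂[-((8 + 4 * d) / 3), 0], !₂[-((8 - 4 * d) / 3), -(2 * d)]]
/-- End points of the edges of the hexagon. -/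
noncomputable def bM (d : ℝ) : Fin 6 → E2 :=
  ![!₂[(8 + 4 * d) / 3, 0], !₂[(8 - 4 * d) / 3, 2 * d],
    !₂[-((8 + 4 * d) / 3), 2 * d], !₂[-((8 + 4 * d) / 3), 0], !₂[-((8 - 4 * d) / 3), -(2 * d)],
    !₂[(8 + 4 * d) / 3, -(2 * d)]]
/-- The hexagon. -/
noncomputable def M (d : ℝ) : Set E2 := {x | ∀ i, @inner ℝ _ _ x (uM i) ≤ hM d i}

lemma mem_K (d : ℝ) (x : E2) : x ∈ K d ↔
    -d ≤ x 1 ∧ 3 * x 0 + 4 * x 1 ≤ 5 ∧ x 1 ≤ d ∧ -1 ≤ x 0 := by
  simp only [K, Set.mem_ofPred_eq, Fin.forall_fin_succ, uK, hK, inner2]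
  simp
  constructor
  · rintro ⟨h1, h2, h3, h4⟩
    refine ⟨by linarith, by linarith, by linarith, by linarith⟩
  · rintro ⟨h1, h2, h3, h4⟩
    refine ⟨by linarith, by linarith, by linarith, by linarith⟩

lemma mem_M (d : ℝ) (x : E2) : x ∈ M d ↔ (x 0 ≤ (8 + 4 * d) / 3 ∧ 3 * x 0 + 4 * x 1 ≤ 8 + 4 * d ∧
    x 1 ≤ 2 * d ∧ -((8 + 4 * d) / 3) ≤ x 0 ∧
    -(8 + 4 * d) ≤ 3 * x 0 + 4 * x 1 ∧ -(2 * d) ≤ x 1) := by
  simp only [M, Set.mem_ofPred_eq, Fin.forall_fin_succ, uM, hM, inner2]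
  simp [-and_congr_right_iff]
  constructor
  · rintro ⟨h1, h2, h3, h4, h5, h6⟩
    refine ⟨by linarith, by linarith, by linarith, by linarith, by linarith, by linarith⟩
  · rintro ⟨h1, h2, h3, h4, h5, h6⟩
    refine ⟨by linarith, by linarith, by linarith, by linarith, by linarith, by linarith⟩

variable {d : ℝ}

lemma zero_mem_K (hd : 0 < d) : (0 : E2) ∈ K d := by
  rw [mem_K]
  simp
  linarith

lemma zero_mem_M (hd : 0 < d) : (0 : E2) ∈ M d := by
  rw [mem_M]
  simp only [PiLp.zero_apply]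
  refine ⟨?_, ?_, ?_, ?_, ?_, ?_⟩ <;> linarith

lemma mk_mem_M {s t : ℝ} (h1 : s ≤ (8 + 4 * d) / 3) (h2 : 3 * s + 4 * t ≤ 8 + 4 * d)
    (h3 : t ≤ 2 * d) (h4 : -((8 + 4 * d) / 3) ≤ s) (h5 : -(8 + 4 * d) ≤ 3 * s + 4 * t)
    (h6 : -(2 * d) ≤ t) : (!₂[s, t] : E2) ∈ M d := by
  rw [mem_M]
  exact ⟨h1, h2, h3, h4, h5, h6⟩

lemma mk_mem_K {s t : ℝ} (h1 : -d ≤ t) (h2 : 3 * s + 4 * t ≤ 5) (h3 : t ≤ d) (h4 : -1 ≤ s) :
    (!₂[s, t] : E2) ∈ K d := by
  rw [mem_K]
  exact ⟨h1, h2, h3, h4⟩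

lemma edge_K (hd : 0 < d) (hd1 : d < 1) (i : Fin 4) : IsEdge (K d) (aK d i) (bK d i) (uK i) (hK d i) := by
  refine ⟨norm_one_of ?_, ?_, ?_, fun y hy => hy i, ?_, ?_, ?_, ?_⟩
  · fin_cases i <;> norm_num [uK]
  · rw [inner2]
    fin_cases i <;> norm_num [uK, aK, hK] <;> ring
  · rw [inner2]
    fin_cases i <;> norm_num [uK, bK, hK] <;> ring
  · fin_cases i <;> (apply mk_mem_K <;> linarith)
  · fin_cases i <;> (apply mk_mem_K <;> linarith)
  · intro h
    have h0 := congrArg (fun z : E2 => z 0) h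
    have h1 := congrArg (fun z : E2 => z 1) h
    revert h0 h1
    fin_cases i
    · intro h0 _
      norm_num [aK, bK] at h0
      linarith
    · intro _ h1
      norm_num [aK, bK] at h1
      linarith
    · intro h0 _
      norm_num [aK, bK] at h0
      linarith
    · intro _ h1
      norm_num [aK, bK] at h1
      linarith
  · fin_cases i <;> norm_num [hK] <;> linarith

lemma edge_M (hd : 0 < d) (hd1 : d < 1) (i : Fin 6) : IsEdge (M d) (aM d i) (bM d i) (uM i) (hM d i) := by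
  refine ⟨norm_one_of ?_, ?_, ?_, fun y hy => hy i, ?_, ?_, ?_, ?_⟩
  · fin_cases i <;> norm_num [uM]
  · rw [inner2]
    fin_cases i <;> norm_num [uM, aM, hM] <;> ring
  · rw [inner2]
    fin_cases i <;> norm_num [uM, bM, hM] <;> ring
  · fin_cases i <;> (apply mk_mem_M <;> linarith)
  · fin_cases i <;> (apply mk_mem_M <;> linarith)
  · intro h
    have h0 := congrArg (fun z : E2 => z 0) h
    have h1 := congrArg (fun z : E2 => z 1) h
    revert h0 h1
    fin_cases i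
    all_goals
      norm_num [aM, bM]
      intros
      linarith
  · fin_cases i <;> norm_num [hM] <;> linarith

lemma face_K (hd : 0 < d) (hd1 : d < 1) (i : Fin 4) (x : E2) (hx : x ∈ K d)
    (h : @inner ℝ _ _ x (uK i) = hK d i) :
    x ∈ segment ℝ (aK d i) (bK d i) := by
  rw [mem_K] at hx
  obtain ⟨h1, h2, h3, h4⟩ := hx
  rw [inner2] at h
  have p1 : 0 < 8 + 4 * d := by linarith
  have p2 : 0 < 8 - 4 * d := by linarith
  fin_cases i
  · norm_num [uK, hK] at h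
    have hx1 : x 1 = -d := by linarith
    refine mem_seg (3 * (x 0 + 1) / (8 + 4 * d)) ?_ ?_ ?_ ?_
    · apply div_nonneg <;> linarith
    · rw [div_le_one p1]; linarith
    · show x 0 = (1 - 3 * (x 0 + 1) / (8 + 4 * d)) * (-1) + 3 * (x 0 + 1) / (8 + 4 * d) * ((5 + 4 * d) / 3)
      field_simp
      ring
    · show x 1 = (1 - 3 * (x 0 + 1) / (8 + 4 * d)) * (-d) + 3 * (x 0 + 1) / (8 + 4 * d) * (-d)
      rw [hx1]; ring
  · norm_num [uK, hK] at h
    have hx0 : x 0 = (5 - 4 * x 1) / 3 := by linarith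
    refine mem_seg ((x 1 + d) / (2 * d)) ?_ ?_ ?_ ?_
    · apply div_nonneg <;> linarith
    · rw [div_le_one (by linarith)]; linarith
    · show x 0 = (1 - (x 1 + d) / (2 * d)) * ((5 + 4 * d) / 3) + (x 1 + d) / (2 * d) * ((5 - 4 * d) / 3)
      rw [hx0]
      field_simp
      ring
    · show x 1 = (1 - (x 1 + d) / (2 * d)) * (-d) + (x 1 + d) / (2 * d) * d
      field_simp
      ring
  · norm_num [uK, hK] at h
    have hx1 : x 1 = d := by linarith
    refine mem_seg (((5 - 4 * d) - 3 * x 0) / (8 - 4 * d)) ?_ ?_ ?_ ?_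
    · apply div_nonneg <;> linarith
    · rw [div_le_one p2]; linarith
    · show x 0 = (1 - ((5 - 4 * d) - 3 * x 0) / (8 - 4 * d)) * ((5 - 4 * d) / 3) + ((5 - 4 * d) - 3 * x 0) / (8 - 4 * d) * (-1)
      field_simp
      ring
    · show x 1 = (1 - ((5 - 4 * d) - 3 * x 0) / (8 - 4 * d)) * d + ((5 - 4 * d) - 3 * x 0) / (8 - 4 * d) * d
      rw [hx1]; ring
  · norm_num [uK, hK] at h
    have hx0 : x 0 = -1 := by linarith
    refine mem_seg ((d - x 1) / (2 * d)) ?_ ?_ ?_ ?_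
    · apply div_nonneg <;> linarith
    · rw [div_le_one (by linarith)]; linarith
    · show x 0 = (1 - (d - x 1) / (2 * d)) * (-1) + (d - x 1) / (2 * d) * (-1)
      rw [hx0]; ring
    · show x 1 = (1 - (d - x 1) / (2 * d)) * d + (d - x 1) / (2 * d) * (-d)
      field_simp
      ring

lemma face_M (hd : 0 < d) (hd1 : d < 1) (i : Fin 6) (x : E2) (hx : x ∈ M d)
    (h : @inner ℝ _ _ x (uM i) = hM d i) :
    x ∈ segment ℝ (aM d i) (bM d i) := by
  rw [mem_M] at hx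
  obtain ⟨h1, h2, h3, h4, h5, h6⟩ := hx
  rw [inner2] at h
  fin_cases i
  · norm_num [uM, hM] at h
    refine mem_seg ((x 1 + 2 * d) / (2 * d)) ?_ ?_ ?_ ?_
    · apply div_nonneg <;> linarith
    · rw [div_le_one (by linarith)]; linarith
    · show x 0 = (1 - (x 1 + 2 * d) / (2 * d)) * ((8 + 4 * d) / 3) + (x 1 + 2 * d) / (2 * d) * ((8 + 4 * d) / 3)
      rw [h]; ring
    · show x 1 = (1 - (x 1 + 2 * d) / (2 * d)) * (-(2 * d)) + (x 1 + 2 * d) / (2 * d) * 0
      field_simp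
      ring
  · norm_num [uM, hM] at h
    have hx0 : x 0 = (8 + 4 * d - 4 * x 1) / 3 := by linarith
    refine mem_seg (x 1 / (2 * d)) ?_ ?_ ?_ ?_
    · apply div_nonneg <;> linarith
    · rw [div_le_one (by linarith)]; linarith
    · show x 0 = (1 - x 1 / (2 * d)) * ((8 + 4 * d) / 3) + x 1 / (2 * d) * ((8 - 4 * d) / 3)
      rw [hx0]
      field_simp
      ring
    · show x 1 = (1 - x 1 / (2 * d)) * 0 + x 1 / (2 * d) * (2 * d)
      field_simp
      ring
  · norm_num [uM, hM] at h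
    have hx1 : x 1 = 2 * d := by linarith
    refine mem_seg (((8 - 4 * d) - 3 * x 0) / 16) ?_ ?_ ?_ ?_
    · linarith
    · linarith
    · show x 0 = (1 - ((8 - 4 * d) - 3 * x 0) / 16) * ((8 - 4 * d) / 3) + ((8 - 4 * d) - 3 * x 0) / 16 * (-((8 + 4 * d) / 3))
      ring
    · show x 1 = (1 - ((8 - 4 * d) - 3 * x 0) / 16) * (2 * d) + ((8 - 4 * d) - 3 * x 0) / 16 * (2 * d)
      rw [hx1]; ring
  · norm_num [uM, hM] at h
    have hx0 : x 0 = -((8 + 4 * d) / 3) := by linarith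
    refine mem_seg ((2 * d - x 1) / (2 * d)) ?_ ?_ ?_ ?_
    · apply div_nonneg <;> linarith
    · rw [div_le_one (by linarith)]; linarith
    · show x 0 = (1 - (2 * d - x 1) / (2 * d)) * (-((8 + 4 * d) / 3)) + (2 * d - x 1) / (2 * d) * (-((8 + 4 * d) / 3))
      rw [hx0]; ring
    · show x 1 = (1 - (2 * d - x 1) / (2 * d)) * (2 * d) + (2 * d - x 1) / (2 * d) * 0
      field_simp
      ring
  · norm_num [uM, hM] at h
    have hx0 : x 0 = -(8 + 4 * d + 4 * x 1) / 3 := by linarith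
    refine mem_seg (-x 1 / (2 * d)) ?_ ?_ ?_ ?_
    · apply div_nonneg <;> linarith
    · rw [div_le_one (by linarith)]; linarith
    · show x 0 = (1 - -x 1 / (2 * d)) * (-((8 + 4 * d) / 3)) + -x 1 / (2 * d) * (-((8 - 4 * d) / 3))
      rw [hx0]
      field_simp
      ring
    · show x 1 = (1 - -x 1 / (2 * d)) * 0 + -x 1 / (2 * d) * (-(2 * d))
      field_simp
      ring
  · norm_num [uM, hM] at h
    have hx1 : x 1 = -(2 * d) := by linarith
    refine mem_seg ((3 * x 0 + (8 - 4 * d)) / 16) ?_ ?_ ?_ ?_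
    · linarith
    · linarith
    · show x 0 = (1 - (3 * x 0 + (8 - 4 * d)) / 16) * (-((8 - 4 * d) / 3)) + (3 * x 0 + (8 - 4 * d)) / 16 * ((8 + 4 * d) / 3)
      ring
    · show x 1 = (1 - (3 * x 0 + (8 - 4 * d)) / 16) * (-(2 * d)) + (3 * x 0 + (8 - 4 * d)) / 16 * (-(2 * d))
      rw [hx1]; ring

lemma frontier_K (hd : 0 < d) (hd1 : d < 1) : frontier (K d) = ⋃ i, segment ℝ (aK d i) (bK d i) :=
  frontier_eq (K d) (aK d) (bK d) uK (hK d) rfl (edge_K hd hd1) (face_K hd hd1)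

lemma frontier_M (hd : 0 < d) (hd1 : d < 1) : frontier (M d) = ⋃ i, segment ℝ (aM d i) (bM d i) :=
  frontier_eq (M d) (aM d) (bM d) uM (hM d) rfl (edge_M hd hd1) (face_M hd hd1)

lemma inj_K : Function.Injective uK := by
  intro i j h
  have h0 := congrArg (fun z : E2 => z 0) h
  have h1 := congrArg (fun z : E2 => z 1) h
  revert h0 h1
  clear h
  fin_cases i <;> fin_cases j <;> norm_num [uK]

lemma inj_M : Function.Injective uM := by
  intro i j h
  have h0 := congrArg (fun z : E2 => z 0) h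
  have h1 := congrArg (fun z : E2 => z 1) h
  revert h0 h1
  clear h
  fin_cases i <;> fin_cases j <;> norm_num [uM]

lemma K_convex : Convex ℝ (K d) := by
  intro x hx y hy s t hs ht hst i
  rw [inner_add_left, real_inner_smul_left, real_inner_smul_left]
  have h1 := mul_le_mul_of_nonneg_left (hx i) hs
  have h2 := mul_le_mul_of_nonneg_left (hy i) ht
  have h3 : s * hK d i + t * hK d i = hK d i := by rw [← add_mul, hst, one_mul]
  linarith

lemma K_closed : IsClosed (K d) := by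
  rw [K, Set.ofPred_forall]
  exact isClosed_iInter fun i =>
    isClosed_le (Continuous.inner continuous_id continuous_const) continuous_const

lemma K_compact (hd : 0 < d) (hd1 : d < 1) : IsCompact (K d) := by
  refine Metric.isCompact_of_isClosed_isBounded K_closed ?_
  rw [isBounded_iff_forall_norm_le]
  refine ⟨10, fun x hx => ?_⟩
  rw [mem_K] at hx
  obtain ⟨h1, h2, h3, h4⟩ := hx
  have h5 := normsq2 x
  have h6 : x 0 ≤ 3 := by linarith
  have h7 : x 0 ^ 2 ≤ 3 ^ 2 := by nlinarith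
  have h8 : x 1 ^ 2 ≤ 1 := by nlinarith
  have h9 : ‖x‖ ^ 2 ≤ 10 ^ 2 := by rw [h5]; linarith
  exact (sq_le_sq₀ (norm_nonneg x) (by norm_num)).mp h9

lemma zero_mem_interior_K (hd : 0 < d) (hd1 : d < 1) : (0 : E2) ∈ interior (K d) := by
  rw [mem_interior_iff_mem_nhds]
  have : {y : E2 | ∀ i, @inner ℝ _ _ y (uK i) < hK d i} ∈ nhds (0 : E2) := by
    apply IsOpen.mem_nhds
    · rw [Set.ofPred_forall]
      exact isOpen_iInter_of_finite fun i =>
        isOpen_lt (Continuous.inner continuous_id continuous_const) continuous_const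
    · intro i
      rw [inner_zero_left]
      exact (edge_K hd hd1 i).hpos
  exact Filter.mem_of_superset this fun y hy i => (hy i).le

lemma zero_mem_interior_negK (hd : 0 < d) (hd1 : d < 1) : (0 : E2) ∈ interior (-(K d)) := by
  rw [mem_interior_iff_mem_nhds]
  have h := mem_interior_iff_mem_nhds.mp (zero_mem_interior_K hd hd1)
  exact (continuous_neg.tendsto' (0 : E2) 0 neg_zero) h

/-- The Minkowski sum of the trapezoid and its reflection is the hexagon. -/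
lemma sum_eq (hd : 0 < d) (hd1 : d < 1) : K d + (-(K d)) = M d := by
  ext x
  constructor
  · rintro ⟨y, hy, z, hz, rfl⟩
    rw [Set.mem_neg, mem_K] at hz
    rw [mem_K] at hy
    rw [mem_M]
    simp only [PiLp.neg_apply, PiLp.add_apply] at hz ⊢
    obtain ⟨h1, h2, h3, h4⟩ := hy
    obtain ⟨k1, k2, k3, k4⟩ := hz
    refine ⟨?_, ?_, ?_, ?_, ?_, ?_⟩ <;> linarith
  · intro hx
    rw [mem_M] at hx
    obtain ⟨h1, h2, h3, h4, h5, h6⟩ := hx
    have key : ∀ y0 y1 : ℝ, (-d ≤ y1 ∧ 3 * y0 + 4 * y1 ≤ 5 ∧ y1 ≤ d ∧ -1 ≤ y0) →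
        (-d ≤ -(x 1 - y1) ∧ 3 * -(x 0 - y0) + 4 * -(x 1 - y1) ≤ 5 ∧ -(x 1 - y1) ≤ d ∧
          -1 ≤ -(x 0 - y0)) → x ∈ K d + (-(K d)) := by
      intro y0 y1 hy hz
      refine ⟨!₂[y0, y1], ?_, x - !₂[y0, y1], ?_, add_sub_cancel _ _⟩
      · rw [mem_K]
        simpa using hy
      · rw [Set.mem_neg, mem_K]
        simpa using hz
    rcases le_total 0 (x 0) with h0 | h0 <;> rcases le_total 0 (x 1) with h1' | h1'
    · exact key (x 0 - 1) (x 1 - d)
        ⟨by linarith, by linarith, by linarith, by linarith⟩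
        ⟨by linarith, by linarith, by linarith, by linarith⟩
    · exact key (x 0 - 1) (-d)
        ⟨by linarith, by linarith, by linarith, by linarith⟩
        ⟨by linarith, by linarith, by linarith, by linarith⟩
    · exact key (-1) (x 1 - d)
        ⟨by linarith, by linarith, by linarith, by linarith⟩
        ⟨by linarith, by linarith, by linarith, by linarith⟩
    · exact key (-1) (-d)
        ⟨by linarith, by linarith, by linarith, by linarith⟩
        ⟨by linarith, by linarith, by linarith, by linarith⟩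

end Pool.Agent.Lib.MP_46ea74_gt.Par
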