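import Mathlib
import Pool.Agent.Lib.MP_46ea74_gt.Poly

set_option autoImplicit false
open MeasureTheory Set
open scoped Pointwise

namespace Pool.Agent.Lib.MP_46ea74_gt.Par

open Pool.Agent.Lib.MP_46ea74_gt

/-- A convex body of n-space: a compact convex set with nonempty interior. -/
def IsBody {n : ℕ} (K : Set (EuclideanSpace ℝ (Fin n))) : Prop :=
  IsCompact K ∧ Convex ℝ K ∧ (interior K).Nonempty

/-- The support function of `K` at the unit vector `u`. -/
noncomputable def supportFn {n : ℕ} (K : Set (EuclideanSpace ℝ (Fin n)))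
    (u : Metric.sphere (0 : EuclideanSpace ℝ (Fin n)) 1) : ℝ :=
  sSup {t : ℝ | ∃ x ∈ K, t = @inner ℝ _ _ x (u : EuclideanSpace ℝ (Fin n))}

/-- The boundary points of `K` having an outer unit normal in `w`. -/
def normalPreimage {n : ℕ} (K : Set (EuclideanSpace ℝ (Fin n)))
    (w : Set (Metric.sphere (0 : EuclideanSpace ℝ (Fin n)) 1)) : Set (EuclideanSpace ℝ (Fin n)) :=
  {x | x ∈ frontier K ∧ ∃ u ∈ w, ∀ y ∈ K,
    @inner ℝ _ _ (y - x) (u : EuclideanSpace ℝ (Fin n)) ≤ 0}

/-- `S` is the surface area measure of `K`: a Borel measure on the unit sphere giving each Borel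
set `w` the (n-1)-dimensional Hausdorff measure of the set of boundary points of `K` that have an
outer unit normal in `w`. -/
def IsSurfaceAreaMeasure {n : ℕ} (K : Set (EuclideanSpace ℝ (Fin n)))
    (S : Measure (Metric.sphere (0 : EuclideanSpace ℝ (Fin n)) 1)) : Prop :=
  ∀ w : Set (Metric.sphere (0 : EuclideanSpace ℝ (Fin n)) 1), MeasurableSet w →
    S w = μH[(n : ℝ) - 1] (normalPreimage K w)

/-- The number `s` is the `L_p` surface area of `K`: the integral over the sphere of the power
`1 - p` of the support function with respect to the surface area measure. -/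
def HasLpSurfaceArea {n : ℕ} (p : ℝ) (K : Set (EuclideanSpace ℝ (Fin n))) (s : ℝ) : Prop :=
  ∃ S : Measure (Metric.sphere (0 : EuclideanSpace ℝ (Fin n)) 1), IsSurfaceAreaMeasure K S ∧
    Integrable (fun u => supportFn K u ^ (1 - p)) S ∧ s = ∫ u, supportFn K u ^ (1 - p) ∂S

/-- The `L_p` surface area is unique. -/
lemma HasLpSurfaceArea.unique {n : ℕ} {p : ℝ} {K : Set (EuclideanSpace ℝ (Fin n))} {s t : ℝ}
    (hs : HasLpSurfaceArea p K s) (ht : HasLpSurfaceArea p K t) : s = t := by
  obtain ⟨S, hS, -, rfl⟩ := hs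
  obtain ⟨T, hT, -, rfl⟩ := ht
  have : S = T := by
    ext w hw
    rw [hS w hw, hT w hw]
  rw [this]

section polygon

variable {m : ℕ} (A : Set E2) (a b u : Fin m → E2) (h : Fin m → ℝ)

/-- The normal of an edge as a point of the unit circle. -/
noncomputable def edgeNormal (hedge : ∀ i, IsEdge A (a i) (b i) (u i) (h i)) (i : Fin m) :
    Metric.sphere (0 : E2) 1 :=
  ⟨u i, by rw [mem_sphere_zero_iff_norm]; exact (hedge i).norm⟩

/-- The surface area measure of a polygon. -/
noncomputable def polyMeasure (hedge : ∀ i, IsEdge A (a i) (b i) (u i) (h i)) :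
    Measure (Metric.sphere (0 : E2) 1) :=
  ∑ i, edist (a i) (b i) • Measure.dirac (edgeNormal A a b u h hedge i)

lemma polyMeasure_isSurfaceAreaMeasure (h0 : (0 : E2) ∈ A)
    (hedge : ∀ i, IsEdge A (a i) (b i) (u i) (h i)) (hu : Function.Injective u)
    (hfr : frontier A = ⋃ i, segment ℝ (a i) (b i)) :
    IsSurfaceAreaMeasure A (polyMeasure A a b u h hedge) := by
  classical
  intro w hw
  have e1 : ((2 : ℕ) : ℝ) - 1 = 1 := by norm_num
  rw [e1]
  set U := edgeNormal A a b u h hedge with hU
  set I : Finset (Fin m) := Finset.univ.filter fun i => U i ∈ w with hI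
  have hd : Pairwise (Function.onFun (AEDisjoint (μH[1] : Measure E2))
      (fun i => segment ℝ (a i) (b i))) := by
    intro i j hij
    refine measure_mono_null ?_ (diff_openSegment_null (a i) (b i))
    rintro x ⟨hxi, hxj⟩
    refine ⟨hxi, fun hxo => hij ?_⟩
    have hxuj : @inner ℝ _ _ x (u j) = h j := by
      obtain ⟨s, t, hs, ht, hst, rfl⟩ := hxj
      rw [inner_add_left, real_inner_smul_left, real_inner_smul_left, (hedge j).ha,
        (hedge j).hb, ← add_mul, hst, one_mul]
    have := (hedge i).unique h0 hxo (hedge j).norm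
      (fun y hy => ((hedge j).hsup y hy).trans hxuj.ge)
    exact (hu this).symm
  have hL : (polyMeasure A a b u h hedge) w = ∑ i ∈ I, edist (a i) (b i) := by
    rw [polyMeasure, Measure.finsetSum_apply, hI, Finset.sum_filter]
    refine Finset.sum_congr rfl fun i _ => ?_
    rw [Measure.smul_apply, Measure.dirac_apply' _ hw, smul_eq_mul]
    by_cases hi : U i ∈ w
    · rw [if_pos hi, Set.indicator_of_mem (by exact hi)]
      simp
    · rw [if_neg hi, Set.indicator_of_notMem (by exact hi)]
      simp
  have hseg : ∀ i, (μH[1] : Measure E2) (segment ℝ (a i) (b i)) = edist (a i) (b i) :=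
    fun i => hausdorffMeasure_segment _ _
  have hU1 : (μH[1] : Measure E2) (⋃ i ∈ I, segment ℝ (a i) (b i)) = ∑ i ∈ I, edist (a i) (b i) := by
    rw [measure_biUnion_finset₀ (fun i _ j _ hij => hd hij)
      (fun i _ => (measurableSet_segment' _ _).nullMeasurableSet)]
    exact Finset.sum_congr rfl fun i _ => hseg i
  rw [hL, ← hU1]
  apply le_antisymm
  · apply measure_mono
    intro x hx
    simp only [mem_iUnion] at hx
    obtain ⟨i, hiI, hxi⟩ := hx
    have hiw : U i ∈ w := by
      rw [hI, Finset.mem_filter] at hiI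
      exact hiI.2
    have hxu : @inner ℝ _ _ x (u i) = h i := by
      obtain ⟨s, t, hs, ht, hst, rfl⟩ := hxi
      rw [inner_add_left, real_inner_smul_left, real_inner_smul_left, (hedge i).ha,
        (hedge i).hb, ← add_mul, hst, one_mul]
    refine ⟨?_, U i, hiw, ?_⟩
    · rw [hfr]
      exact mem_iUnion.mpr ⟨i, hxi⟩
    · intro y hy
      have h1 := (hedge i).hsup y hy
      show @inner ℝ _ _ (y - x) (u i) ≤ 0
      rw [inner_sub_left, hxu]
      linarith
  · have hsub : normalPreimage A w ⊆ (⋃ i ∈ I, segment ℝ (a i) (b i)) ∪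
        ⋃ i, (segment ℝ (a i) (b i) \ openSegment ℝ (a i) (b i)) := by
      rintro x ⟨hxf, v, hvw, hv⟩
      rw [hfr] at hxf
      obtain ⟨j, hxj⟩ := mem_iUnion.mp hxf
      by_cases hxo : x ∈ openSegment ℝ (a j) (b j)
      · left
        have hvn : ‖(v : E2)‖ = 1 := mem_sphere_zero_iff_norm.mp v.2
        have hvu : (v : E2) = u j := (hedge j).unique h0 hxo hvn (fun y hy => by
          have := hv y hy
          rw [inner_sub_left] at this
          linarith)
        have hvU : v = U j := Subtype.ext hvu
        simp only [mem_iUnion]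
        refine ⟨j, ?_, hxj⟩
        rw [hI, Finset.mem_filter]
        exact ⟨Finset.mem_univ _, hvU ▸ hvw⟩
      · right
        exact mem_iUnion.mpr ⟨j, hxj, hxo⟩
    refine (measure_mono hsub).trans ((measure_union_le _ _).trans ?_)
    have hz : (μH[1] : Measure E2) (⋃ i, (segment ℝ (a i) (b i) \ openSegment ℝ (a i) (b i))) = 0 := by
      rw [measure_iUnion_null_iff]
      exact fun i => diff_openSegment_null _ _
    rw [hz, add_zero]

lemma supportFn_edge (hedge : ∀ i, IsEdge A (a i) (b i) (u i) (h i)) (i : Fin m) :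
    supportFn A (edgeNormal A a b u h hedge i) = h i := by
  apply IsGreatest.csSup_eq
  refine ⟨⟨a i, (hedge i).amem, (hedge i).ha.symm⟩, ?_⟩
  rintro t ⟨x, hx, rfl⟩
  exact (hedge i).hsup x hx

theorem polygon_hasLpSurfaceArea (h0 : (0 : E2) ∈ A)
    (hedge : ∀ i, IsEdge A (a i) (b i) (u i) (h i)) (hu : Function.Injective u)
    (hfr : frontier A = ⋃ i, segment ℝ (a i) (b i)) (p : ℝ) :
    HasLpSurfaceArea p A (∑ i, dist (a i) (b i) * (h i) ^ (1 - p)) := by
  have hint : ∀ i ∈ (Finset.univ : Finset (Fin m)),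
      Integrable (fun v : Metric.sphere (0 : E2) 1 => supportFn A v ^ (1 - p))
      (edist (a i) (b i) • Measure.dirac (edgeNormal A a b u h hedge i)) := by
    intro i _
    apply Integrable.smul_measure
    · apply integrable_dirac
      simp
    · exact edist_ne_top _ _
  refine ⟨polyMeasure A a b u h hedge, polyMeasure_isSurfaceAreaMeasure A a b u h h0 hedge hu hfr,
    ?_, ?_⟩
  · rw [polyMeasure]
    exact integrable_finsetSum_measure.mpr hint
  · rw [polyMeasure, integral_finsetSum_measure hint]
    refine Finset.sum_congr rfl fun i _ => ?_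
    rw [integral_smul_measure, integral_dirac, supportFn_edge, smul_eq_mul, edist_dist,
      ENNReal.toReal_ofReal dist_nonneg]

end polygon

end Pool.Agent.Lib.MP_46ea74_gt.Par
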