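import Mathlib
import Pool.Agent.Lib.MP_46ea74_gt.Param
import Pool.Agent.Lib.MP_46ea74_gt.SurfMeas

set_option autoImplicit false
open MeasureTheory Set
open scoped Pointwise

namespace Pool.Agent.Lib.MP_46ea74_gt.Par

open Pool.Agent.Lib.MP_46ea74_gt

variable {d : ℝ}

lemma area_K (hd : 0 < d) (hd1 : d < 1) (p : ℝ) :
    HasLpSurfaceArea p (K d) (16 / 3 * (d ^ (1 - p) + d)) := by
  have h := polygon_hasLpSurfaceArea (K d) (aK d) (bK d) uK (hK d) (zero_mem_K hd)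
    (edge_K hd hd1) inj_K (frontier_K hd hd1) p
  have d0 : dist (aK d 0) (bK d 0) = (8 + 4 * d) / 3 :=
    dist2 (!₂[-1, -d]) (!₂[(5 + 4 * d) / 3, -d]) _ (by linarith) (by
      show (-1 - (5 + 4 * d) / 3) ^ 2 + (-d - -d) ^ 2 = _
      ring)
  have d1 : dist (aK d 1) (bK d 1) = 10 * d / 3 :=
    dist2 (!₂[(5 + 4 * d) / 3, -d]) (!₂[(5 - 4 * d) / 3, d]) _ (by linarith) (by
      show ((5 + 4 * d) / 3 - (5 - 4 * d) / 3) ^ 2 + (-d - d) ^ 2 = _
      ring)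
  have d2 : dist (aK d 2) (bK d 2) = (8 - 4 * d) / 3 :=
    dist2 (!₂[(5 - 4 * d) / 3, d]) (!₂[-1, d]) _ (by linarith) (by
      show ((5 - 4 * d) / 3 - -1) ^ 2 + (d - d) ^ 2 = _
      ring)
  have d3 : dist (aK d 3) (bK d 3) = 2 * d :=
    dist2 (!₂[-1, d]) (!₂[-1, -d]) _ (by linarith) (by
      show (-1 - -1) ^ 2 + (d - -d) ^ 2 = _
      ring)
  rw [Fin.sum_univ_four, d0, d1, d2, d3] at h
  convert h using 1
  simp only [hK]
  simp
  ring

lemma area_negK (hd : 0 < d) (hd1 : d < 1) (p : ℝ) :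
    HasLpSurfaceArea p (-(K d)) (16 / 3 * (d ^ (1 - p) + d)) := by
  have hfr : frontier (-(K d)) = ⋃ i, segment ℝ ((-aK d) i) ((-bK d) i) := by
    apply frontier_eq (-(K d)) (-aK d) (-bK d) (-uK) (hK d)
    · ext x
      simp only [Set.mem_neg, K, Set.mem_ofPred_eq, Pi.neg_apply, inner_neg_left, inner_neg_right]
    · intro i
      exact (edge_K hd hd1 i).neg
    · intro i x hx h
      have h1 := face_K hd hd1 i (-x) (by simpa using hx) (by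
        rw [inner_neg_left, ← inner_neg_right]
        exact h)
      rw [← neg_neg x]
      obtain ⟨s, t, hs, ht, hst, e⟩ := h1
      refine ⟨s, t, hs, ht, hst, ?_⟩
      rw [← e]
      simp only [Pi.neg_apply, smul_neg, neg_add]
  have h := polygon_hasLpSurfaceArea (-(K d)) (-aK d) (-bK d) (-uK) (hK d)
    (by simpa using zero_mem_K hd) (fun i => (edge_K hd hd1 i).neg)
    (fun i j h => inj_K (neg_injective h)) hfr p
  have h2 := area_K hd hd1 p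
  have h3 := polygon_hasLpSurfaceArea (K d) (aK d) (bK d) uK (hK d) (zero_mem_K hd)
    (edge_K hd hd1) inj_K (frontier_K hd hd1) p
  rw [h2.unique h3]
  convert h using 1
  refine Finset.sum_congr rfl fun i _ => ?_
  congr 1
  simp only [Pi.neg_apply, dist_neg_neg]

lemma area_M (hd : 0 < d) (hd1 : d < 1) (p : ℝ) :
    HasLpSurfaceArea p (M d) (4 * d * ((8 + 4 * d) / 3) ^ (1 - p)
      + 20 / 3 * d * ((8 + 4 * d) / 5) ^ (1 - p) + 32 / 3 * (2 * d) ^ (1 - p)) := by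
  have h := polygon_hasLpSurfaceArea (M d) (aM d) (bM d) uM (hM d) (zero_mem_M hd)
    (edge_M hd hd1) inj_M (frontier_M hd hd1) p
  have d0 : dist (aM d 0) (bM d 0) = 2 * d :=
    dist2 (!₂[(8 + 4 * d) / 3, -(2 * d)]) (!₂[(8 + 4 * d) / 3, 0]) _ (by linarith) (by
      show ((8 + 4 * d) / 3 - (8 + 4 * d) / 3) ^ 2 + (-(2 * d) - 0) ^ 2 = _
      ring)
  have d1 : dist (aM d 1) (bM d 1) = 10 * d / 3 :=
    dist2 (!₂[(8 + 4 * d) / 3, 0]) (!₂[(8 - 4 * d) / 3, 2 * d]) _ (by linarith) (by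
      show ((8 + 4 * d) / 3 - (8 - 4 * d) / 3) ^ 2 + (0 - 2 * d) ^ 2 = _
      ring)
  have d2 : dist (aM d 2) (bM d 2) = 16 / 3 :=
    dist2 (!₂[(8 - 4 * d) / 3, 2 * d]) (!₂[-((8 + 4 * d) / 3), 2 * d]) _ (by norm_num) (by
      show ((8 - 4 * d) / 3 - -((8 + 4 * d) / 3)) ^ 2 + (2 * d - 2 * d) ^ 2 = _
      ring)
  have d3 : dist (aM d 3) (bM d 3) = 2 * d :=
    dist2 (!₂[-((8 + 4 * d) / 3), 2 * d]) (!₂[-((8 + 4 * d) / 3), 0]) _ (by linarith) (by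
      show (-((8 + 4 * d) / 3) - -((8 + 4 * d) / 3)) ^ 2 + (2 * d - 0) ^ 2 = _
      ring)
  have d4 : dist (aM d 4) (bM d 4) = 10 * d / 3 :=
    dist2 (!₂[-((8 + 4 * d) / 3), 0]) (!₂[-((8 - 4 * d) / 3), -(2 * d)]) _ (by linarith) (by
      show (-((8 + 4 * d) / 3) - -((8 - 4 * d) / 3)) ^ 2 + (0 - -(2 * d)) ^ 2 = _
      ring)
  have d5 : dist (aM d 5) (bM d 5) = 16 / 3 :=
    dist2 (!₂[-((8 - 4 * d) / 3), -(2 * d)]) (!₂[(8 + 4 * d) / 3, -(2 * d)]) _ (by norm_num) (by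
      show (-((8 - 4 * d) / 3) - (8 + 4 * d) / 3) ^ 2 + (-(2 * d) - -(2 * d)) ^ 2 = _
      ring)
  rw [Fin.sum_univ_six, d0, d1, d2, d3, d4, d5] at h
  convert h using 1
  simp only [hM]
  simp
  ring

/-- For each exponent strictly between 0 and 1 a thin trapezoid beats the inequality. -/
lemma exists_d {q : ℝ} (hq0 : 0 < q) (hq1 : q < 1) : ∃ d : ℝ, 0 < d ∧ d < 1 ∧
    3 * ((8 + 4 * d) / 3) ^ q + 5 * ((8 + 4 * d) / 5) ^ q < 8 * (2 : ℝ) ^ q := by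
  have hc : StrictConcaveOn ℝ (Set.Ici 0) fun x : ℝ => x ^ q :=
    Real.strictConcaveOn_rpow hq0 hq1
  have m1 : (8 / 3 : ℝ) ∈ Set.Ici (0 : ℝ) := by rw [Set.mem_Ici]; norm_num
  have m2 : (8 / 5 : ℝ) ∈ Set.Ici (0 : ℝ) := by rw [Set.mem_Ici]; norm_num
  have m3 : (8 / 3 : ℝ) ≠ 8 / 5 := by norm_num
  have m4 : (0 : ℝ) < 3 / 8 := by norm_num
  have m5 : (0 : ℝ) < 5 / 8 := by norm_num
  have m6 : (3 / 8 : ℝ) + 5 / 8 = 1 := by norm_num
  have h1 := hc.2 m1 m2 m3 m4 m5 m6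
  simp only [smul_eq_mul] at h1
  have e : (3 / 8 * (8 / 3) + 5 / 8 * (8 / 5) : ℝ) = 2 := by norm_num
  rw [e] at h1
  have h2 : 3 * ((8 + 4 * (0 : ℝ)) / 3) ^ q + 5 * ((8 + 4 * (0 : ℝ)) / 5) ^ q < 8 * (2 : ℝ) ^ q := by
    rw [mul_zero, add_zero]
    linarith
  have hcont : ContinuousAt (fun x : ℝ => 3 * ((8 + 4 * x) / 3) ^ q + 5 * ((8 + 4 * x) / 5) ^ q) 0 := by
    have c1 : Continuous fun x : ℝ => ((8 + 4 * x) / 3) ^ q :=
      Continuous.rpow_const (by fun_prop) (fun x => Or.inr hq0.le)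
    have c2 : Continuous fun x : ℝ => ((8 + 4 * x) / 5) ^ q :=
      Continuous.rpow_const (by fun_prop) (fun x => Or.inr hq0.le)
    exact ((continuous_const.mul c1).add (continuous_const.mul c2)).continuousAt
  have h3 := hcont.eventually (gt_mem_nhds h2)
  obtain ⟨ε, hε, hball⟩ := Metric.eventually_nhds_iff.mp h3
  refine ⟨min (ε / 2) (1 / 2), by positivity, by
    exact lt_of_le_of_lt (min_le_right _ _) (by norm_num), ?_⟩
  apply hball
  rw [Real.dist_eq, sub_zero, abs_of_pos (by positivity)]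
  exact lt_of_le_of_lt (min_le_left _ _) (by linarith)

/-- The numerical inequality. -/
lemma numeric (hd : 0 < d) {p : ℝ} (hp0 : 0 < p) (hp1 : p < 1)
    (h : 3 * ((8 + 4 * d) / 3) ^ (1 - p) + 5 * ((8 + 4 * d) / 5) ^ (1 - p) < 8 * (2 : ℝ) ^ (1 - p)) :
    (4 * d * ((8 + 4 * d) / 3) ^ (1 - p) + 20 / 3 * d * ((8 + 4 * d) / 5) ^ (1 - p)
      + 32 / 3 * (2 * d) ^ (1 - p)) ^ (1 / (2 - p)) <
    (16 / 3 * (d ^ (1 - p) + d)) ^ (1 / (2 - p)) + (16 / 3 * (d ^ (1 - p) + d)) ^ (1 / (2 - p)) := by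
  set s : ℝ := 16 / 3 * (d ^ (1 - p) + d) with hs
  have hspos : 0 < s := by positivity
  have h2p : 0 < 2 - p := by linarith
  have e1 : s ^ (1 / (2 - p)) + s ^ (1 / (2 - p)) = ((2 : ℝ) ^ (2 - p) * s) ^ (1 / (2 - p)) := by
    rw [Real.mul_rpow (by positivity) hspos.le, ← Real.rpow_mul (by norm_num),
      mul_one_div_cancel h2p.ne', Real.rpow_one]
    ring
  rw [e1]
  apply Real.rpow_lt_rpow (by positivity) _ (by positivity)
  have e2 : (2 : ℝ) ^ (2 - p) = 2 * (2 : ℝ) ^ (1 - p) := by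
    rw [show 2 - p = 1 + (1 - p) by ring, Real.rpow_add (by norm_num), Real.rpow_one]
  have e3 : (2 * d) ^ (1 - p) = (2 : ℝ) ^ (1 - p) * d ^ (1 - p) :=
    Real.mul_rpow (by norm_num) hd.le
  rw [e2, e3, hs]
  have h4 := mul_lt_mul_of_pos_left h (show 0 < 4 / 3 * d by positivity)
  linarith

/-- All in one. -/
theorem main (p : ℝ) (hp0 : 0 < p) (hp1 : p < 1) :
    ∃ K : Set (EuclideanSpace ℝ (Fin 2)), IsBody K ∧ IsBody (-K) ∧
      0 ∈ interior K ∧ 0 ∈ interior (-K) ∧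
      ∃ s t r : ℝ, HasLpSurfaceArea p K s ∧ HasLpSurfaceArea p (-K) t ∧
        HasLpSurfaceArea p (K + -K) r ∧
        r ^ (1 / (2 - p)) < s ^ (1 / (2 - p)) + t ^ (1 / (2 - p)) := by
  obtain ⟨d, hd, hd1, hlt⟩ := exists_d (q := 1 - p) (by linarith) (by linarith)
  refine ⟨K d, ⟨K_compact hd hd1, K_convex, ⟨0, zero_mem_interior_K hd hd1⟩⟩,
    ⟨(K_compact hd hd1).neg, K_convex.neg, ⟨0, zero_mem_interior_negK hd hd1⟩⟩,
    zero_mem_interior_K hd hd1, zero_mem_interior_negK hd hd1,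
    _, _, _, area_K hd hd1 p, area_negK hd hd1 p, ?_, numeric hd hp0 hp1 hlt⟩
  rw [sum_eq hd hd1]
  exact area_M hd hd1 p

end Pool.Agent.Lib.MP_46ea74_gt.Par
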